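import Pool.Agent.H560.SQ.Stm
import Pool.Agent.H985.Chow.RT

/-!
# The residue theorem without a condition on the degrees (task RTI)
Adapted from `Pool.Agent.H985.Chow.rt`.
-/

set_option autoImplicit false

namespace Pool.Agent.H969.SQ

open Polynomial
open Pool.Agent.H985.Chow (lc)
open Pool.Agent.H985.Chow.RT

theorem rtI : Pool.Agent.H560.SQ.S_rtI := by
  intro R _ _ k hk ι _ _ r E G₁ G₂ N₁ N₂ P₁ P₂ c₁ c₂ hE hG₁ hG₂ hr hEr hEG₁ hEG₂ hG₁r hG₂r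
    hd₁ hd₂ hdv₁ hdv₂ hEN hc₁ hc₂ hl₁ hl₂
  set B : R[X] := E * ∏ i, (X - C (r i)) with hBdef
  set Bi : ι → R[X] := fun i => E * ∏ j ∈ Finset.univ.erase i, (X - C (r j)) with hBi
  have hprodmonic : ∀ s : Finset ι, (∏ i ∈ s, (X - C (r i))).Monic :=
    fun s => monic_prod_of_monic _ _ (fun i _ => monic_X_sub_C _)
  have hB : B.Monic := hE.mul (hprodmonic _)
  have hBim : ∀ i, (Bi i).Monic := fun i => hE.mul (hprodmonic _)
  have hBBi : ∀ i, B = (X - C (r i)) * Bi i := by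
    intro i
    simp only [hBi, hBdef]
    rw [← Finset.mul_prod_erase Finset.univ _ (Finset.mem_univ i)]
    ring
  obtain ⟨Q₁, hQ₁⟩ := hdv₁
  obtain ⟨Q₂, hQ₂⟩ := hdv₂
  -- global residues
  have s₁ := one_side k hB hG₁ hQ₁
  have s₂ := one_side k hB hG₂ hQ₂
  have main : lc G₁ P₁ - lc G₂ P₂ = lc (B ^ k * G₁) N₁ - lc (B ^ k * G₂) N₂ -
      lc (B ^ k) (Q₁ - Q₂) := by
    rw [lc_sub, s₁, s₂]
    ring
  rw [main]
  congr 1
  -- the local parts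
  have hcop : ∀ i, IsCoprime ((X - C (r i)) ^ k) (E ^ k) := fun i =>
    (coprime_X_sub_C E (r i) (hEr i)).pow
  have hcopG₁ : ∀ i, IsCoprime ((X - C (r i)) ^ k) G₁ := fun i =>
    (coprime_X_sub_C G₁ (r i) (hG₁r i)).pow_left
  have hcopG₂ : ∀ i, IsCoprime ((X - C (r i)) ^ k) G₂ := fun i =>
    (coprime_X_sub_C G₂ (r i) (hG₂r i)).pow_left
  set Z : R[X] := Q₁ - Q₂ - ∑ i, (c₁ i - c₂ i) * Bi i ^ k with hZ
  have hMB : ∀ i, (X - C (r i)) ^ k ∣ B ^ k := fun i => by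
    rw [hBBi i, mul_pow]; exact dvd_mul_right _ _
  have hlocal : ∀ i, (X - C (r i)) ^ k ∣ Z := by
    intro i
    have a₁ := loc (b := Bi i ^ k) k (hMB i) (hcopG₁ i) hQ₁ (hl₁ i)
    have a₂ := loc (b := Bi i ^ k) k (hMB i) (hcopG₂ i) hQ₂ (hl₂ i)
    have e : Z = (Q₁ - c₁ i * Bi i ^ k) - (Q₂ - c₂ i * Bi i ^ k)
        - ∑ j ∈ Finset.univ.erase i, (c₁ j - c₂ j) * Bi j ^ k := by
      rw [hZ, ← Finset.add_sum_erase Finset.univ _ (Finset.mem_univ i)]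
      ring
    rw [e]
    refine dvd_sub (dvd_sub a₁ a₂) (Finset.dvd_sum ?_)
    intro j hj
    have hji : j ≠ i := (Finset.mem_erase.1 hj).1
    refine Dvd.dvd.mul_left ?_ _
    refine pow_dvd_pow_of_dvd ?_ k
    exact Dvd.dvd.mul_left (Finset.dvd_prod_of_mem (fun j => (X - C (r j)))
      (Finset.mem_erase.2 ⟨hji.symm, Finset.mem_univ i⟩)) E
  have hEdvd : ∀ i, E ^ k ∣ Bi i ^ k := fun i => pow_dvd_pow_of_dvd (dvd_mul_right _ _) k
  have hE' : E ^ k ∣ Z := by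
    have h1 : E ^ k ∣ (Q₁ - Q₂) * (G₁ * G₂) := by
      have e : (Q₁ - Q₂) * (G₁ * G₂) = (N₁ * G₂ - N₂ * G₁) - (P₁ * G₂ - P₂ * G₁) * B ^ k := by
        calc (Q₁ - Q₂) * (G₁ * G₂) = (G₁ * Q₁) * G₂ - (G₂ * Q₂) * G₁ := by ring
          _ = (N₁ - P₁ * B ^ k) * G₂ - (N₂ - P₂ * B ^ k) * G₁ := by rw [hQ₁, hQ₂]
          _ = _ := by ring
      rw [e]
      refine dvd_sub hEN (Dvd.dvd.mul_left ?_ _)
      exact pow_dvd_pow_of_dvd (dvd_mul_right _ _) k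
    have h2 : E ^ k ∣ Q₁ - Q₂ :=
      (IsCoprime.mul_right hEG₁ hEG₂).pow_left.dvd_of_dvd_mul_right h1
    refine dvd_sub h2 (Finset.dvd_sum fun i _ => Dvd.dvd.mul_left (hEdvd i) _)
  have hall : B ^ k ∣ Z := by
    have e : B ^ k = E ^ k * ∏ i, (X - C (r i)) ^ k := by
      rw [hBdef, mul_pow, Finset.prod_pow]
    rw [e]
    refine IsCoprime.mul_dvd ?_ hE' ?_
    · exact IsCoprime.prod_right (fun i _ => (hcop i).symm)
    · refine Finset.prod_dvd_of_coprime ?_ (fun i _ => hlocal i)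
      intro i _ j _ hij
      exact (Polynomial.isCoprime_X_sub_C_of_isUnit_sub (hr i j hij)).pow
  have hQ : Q₁ - Q₂ = Z + ∑ i, (c₁ i - c₂ i) * Bi i ^ k := by rw [hZ]; ring
  rw [hQ, lc_add, lc_dvd (hB.pow k) Z hall, zero_add, lc_sum]
  refine Finset.sum_congr rfl fun i _ => ?_
  have e : B ^ k = (X - C (r i)) ^ k * Bi i ^ k := by rw [hBBi i, mul_pow]
  have hmon : ((X - C (r i)) ^ k : R[X]).Monic := (monic_X_sub_C _).pow k
  have hnd : ((X - C (r i)) ^ k : R[X]).natDegree = k := by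
    rw [Polynomial.natDegree_pow, natDegree_X_sub_C, mul_one]
  rw [e, lc_mul hmon ((hBim i).pow k), lc_of_deg hmon, hnd, coeff_sub]
  rw [hnd]
  exact lt_of_le_of_lt (natDegree_sub_le _ _) (max_lt (hc₁ i) (hc₂ i))

end Pool.Agent.H969.SQ
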